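import Mathlib

/-!
# 2-SAT by reachability
-/

set_option autoImplicit false

namespace Q229.TwoSat

open Relation

variable {X : Type} {ng : X → X} {R : X → X → Prop}

theorem contra (hR : ∀ x y, R x y → R (ng y) (ng x)) {x y : X}
    (h : ReflTransGen R x y) : ReflTransGen R (ng y) (ng x) := by
  induction h with
  | refl => exact ReflTransGen.refl
  | tail _ h2 ih => exact ReflTransGen.head (hR _ _ h2) ih

/-- **2-SAT.** If no literal implies its negation and is implied by it, then there is a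
satisfying assignment: `A` is the set of true literals. -/
theorem exists_model (hng : ∀ x, ng (ng x) = x) (hR : ∀ x y, R x y → R (ng y) (ng x))
    (h : ∀ x, ¬ (ReflTransGen R x (ng x) ∧ ReflTransGen R (ng x) x)) :
    ∃ A : Set X, (∀ x, x ∈ A ↔ ng x ∉ A) ∧ ∀ x y, R x y → x ∈ A → y ∈ A := by
  classical
  let S : Set (Set X) := {A | (∀ x ∈ A, ng x ∉ A) ∧ ∀ x ∈ A, ∀ y, R x y → y ∈ A}
  obtain ⟨A, hA⟩ := zorn_subset S (by
    intro c hc hch
    refine ⟨⋃₀ c, ⟨?_, ?_⟩, fun s hs => Set.subset_sUnion_of_mem hs⟩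
    · rintro x ⟨a, ha, hxa⟩ ⟨b, hb, hxb⟩
      rcases hch.total ha hb with h1 | h1
      · exact (hc hb).1 x (h1 hxa) hxb
      · exact (hc ha).1 x hxa (h1 hxb)
    · rintro x ⟨a, ha, hxa⟩ y hxy
      exact ⟨a, ha, (hc ha).2 x hxa y hxy⟩)
  obtain ⟨hA1, hA2⟩ := hA.prop
  have hcl : ∀ x ∈ A, ∀ y, ReflTransGen R x y → y ∈ A := by
    intro x hx y hxy
    induction hxy with
    | refl => exact hx
    | tail _ h2 ih => exact hA2 _ ih _ h2
  -- maximality
  have key : ∀ x, x ∉ A → ng x ∉ A → ReflTransGen R x (ng x) := by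
    intro x hx hnx
    by_contra hno
    have hB : A ∪ {y | ReflTransGen R x y} ∈ S := by
      refine ⟨?_, ?_⟩
      · rintro y (hy | hy) (hy' | hy')
        · exact hA1 y hy hy'
        · -- y ∈ A, x →* ng y, so y →* ng x, ng x ∈ A
          have h1 := contra hR hy'
          rw [hng] at h1
          exact hnx (hcl y hy _ h1)
        · -- x →* y, ng y ∈ A: ng y →* ng x
          exact hnx (hcl _ hy' _ (contra hR hy))
        · have h1 := contra hR hy'
          rw [hng] at h1
          exact hno (ReflTransGen.trans hy h1)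
      · rintro y (hy | hy) z hz
        · exact Or.inl (hA2 y hy z hz)
        · exact Or.inr (ReflTransGen.tail hy hz)
    have h2 := hA.le_of_ge hB Set.subset_union_left
    exact hx (h2 (Or.inr ReflTransGen.refl))
  refine ⟨A, fun x => ⟨hA1 x, fun hnx => ?_⟩, fun x y hxy hx => hA2 x hx y hxy⟩
  by_contra hx
  refine h x ⟨key x hx hnx, ?_⟩
  have := key (ng x) hnx (by rwa [hng])
  rwa [hng] at this

/-- The converse. -/
theorem no_cycle {A : Set X} (h1 : ∀ x, x ∈ A ↔ ng x ∉ A)
    (h2 : ∀ x y, R x y → x ∈ A → y ∈ A) (x : X) :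
    ¬ (ReflTransGen R x (ng x) ∧ ReflTransGen R (ng x) x) := by
  have hcl : ∀ x y, ReflTransGen R x y → x ∈ A → y ∈ A := by
    intro x y hxy hx
    induction hxy with
    | refl => exact hx
    | tail _ h3 ih => exact h2 _ _ h3 ih
  rintro ⟨h3, h4⟩
  by_cases hx : x ∈ A
  · exact (h1 x).1 hx (hcl _ _ h3 hx)
  · have : ng x ∈ A := by
      by_contra h5
      exact hx ((h1 x).2 h5)
    exact hx (hcl _ _ h4 this)

end Q229.TwoSat
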