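import Pool.Agent.Q229.HP.Gap
import Pool.Agent.Q229.HP.TwoSat
import Pool.Agent.Q229.RatP
import Pool.Agent.H614R2.DPO.TG2
import Pool.Agent.H614R2.DPO.TP1
import Pool.Agent.H612.CollectPoly

/-!
# The threshold of a drawing and its computation
-/

set_option autoImplicit false

namespace Q229.HP

open Relation Pool.Agent Pool.Agent.NPC Pool.Agent.H614R2.DPO

/-- A literal: the gap of the first edge covers (does not cover) its crossing with the second. -/
abbrev Lit : Type := (ℕ × ℕ) × (ℕ × ℕ) × Bool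

/-- negation -/
def ng (l : Lit) : Lit := (l.1, l.2.1, !l.2.2)

theorem ng_ng (l : Lit) : ng (ng l) = l := by
  obtain ⟨a, b, c⟩ := l
  simp [ng]

theorem ng_ne (l : Lit) : ng l ≠ l := by
  obtain ⟨a, b, c⟩ := l
  cases c <;> simp [ng]

/-- test for `Crs` -/
def crB (I : Inst) (e f : ℕ × ℕ) : Bool :=
  decide (cr (dir I e) (dir I f) ≠ 0) && ((decide (0 < T I e f) && decide (T I e f < 1)) &&
    (decide (0 < T I f e) && decide (T I f e < 1)))

theorem crB_iff {I : Inst} {e f : ℕ × ℕ} : crB I e f = true ↔ Crs I e f := by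
  unfold crB Crs
  simp only [Bool.and_eq_true, decide_eq_true_eq]

/-- The implications of the 2-SAT instance. -/
def imp (γ : ℚ) (I : Inst) (x y : Lit) : Bool :=
  (decide (x.2.2 = false) && (decide (y.2.2 = true) && (decide (y.1 = x.2.1) &&
    (decide (y.2.1 = x.1) && crB I x.1 x.2.1)))) ||
  (decide (x.2.2 = true) && (decide (y.2.2 = false) && (decide (x.1 = y.1) &&
    (crB I x.1 x.2.1 && (crB I y.1 y.2.1 &&
      (decide (γ ≤ T I x.1 x.2.1 - T I y.1 y.2.1) ||
        decide (γ ≤ T I y.1 y.2.1 - T I x.1 x.2.1)))))))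

theorem imp_iff {γ : ℚ} {I : Inst} {x y : Lit} : imp γ I x y = true ↔
    (x.2.2 = false ∧ y.2.2 = true ∧ y.1 = x.2.1 ∧ y.2.1 = x.1 ∧ Crs I x.1 x.2.1) ∨
    (x.2.2 = true ∧ y.2.2 = false ∧ x.1 = y.1 ∧ Crs I x.1 x.2.1 ∧ Crs I y.1 y.2.1 ∧
      (γ ≤ T I x.1 x.2.1 - T I y.1 y.2.1 ∨ γ ≤ T I y.1 y.2.1 - T I x.1 x.2.1)) := by
  unfold imp
  simp only [Bool.or_eq_true, Bool.and_eq_true, decide_eq_true_eq, crB_iff]

theorem imp_contra {γ : ℚ} {I : Inst} {x y : Lit} (h : imp γ I x y = true) :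
    imp γ I (ng y) (ng x) = true := by
  rw [imp_iff] at h ⊢
  obtain ⟨a, b, c⟩ := x
  obtain ⟨a', b', c'⟩ := y
  simp only [ng] at h ⊢
  rcases h with ⟨rfl, rfl, rfl, rfl, h⟩ | ⟨rfl, rfl, rfl, h1, h2, h3⟩
  · exact Or.inl ⟨rfl, rfl, rfl, rfl, h.symm⟩
  · exact Or.inr ⟨rfl, rfl, rfl, h2, h1, h3.symm⟩

/-- all literals -/
def lits (I : Inst) : List Lit :=
  I.2.flatMap fun e => I.2.flatMap fun f => [(e, f, true), (e, f, false)]

theorem mem_lits {I : Inst} {x : Lit} : x ∈ lits I ↔ x.1 ∈ I.2 ∧ x.2.1 ∈ I.2 := by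
  unfold lits
  obtain ⟨a, b, c⟩ := x
  simp only [List.mem_flatMap, List.mem_cons, Prod.mk.injEq, List.not_mem_nil, or_false]
  constructor
  · rintro ⟨e, he, f, hf, h⟩
    rcases h with ⟨rfl, rfl, -⟩ | ⟨rfl, rfl, -⟩ <;> exact ⟨he, hf⟩
  · rintro ⟨h1, h2⟩
    refine ⟨a, h1, b, h2, ?_⟩
    cases c <;> simp

theorem ng_mem_lits {I : Inst} {x : Lit} : ng x ∈ lits I ↔ x ∈ lits I := by
  rw [mem_lits, mem_lits]
  rfl

/-- satisfiability by reachability -/
def sat (γ : ℚ) (I : Inst) : Bool :=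
  (lits I).all fun x => !(decide (ng x ∈ reachG (imp γ I) (lits I) x) &&
    decide (x ∈ reachG (imp γ I) (lits I) (ng x)))

/-- the implications between literals of the instance -/
def Rel (γ : ℚ) (I : Inst) (x y : Lit) : Prop := x ∈ lits I ∧ y ∈ lits I ∧ imp γ I x y = true

theorem rtg_iff {γ : ℚ} {I : Inst} {x y : Lit} (hx : x ∈ lits I) :
    ReflTransGen (fun a b => imp γ I a b = true ∧ b ∈ lits I) x y ↔
      ReflTransGen (Rel γ I) x y := by
  constructor
  · intro h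
    have : ReflTransGen (Rel γ I) x y ∧ y ∈ lits I := by
      induction h with
      | refl => exact ⟨ReflTransGen.refl, hx⟩
      | tail _ h2 ih => exact ⟨ih.1.tail ⟨ih.2, h2.2, h2.1⟩, h2.2⟩
    exact this.1
  · intro h
    induction h with
    | refl => exact ReflTransGen.refl
    | tail _ h2 ih => exact ih.tail ⟨h2.2.2, h2.2.1⟩

theorem sat_iff' {γ : ℚ} {I : Inst} : sat γ I = true ↔
    ∀ x, ¬ (ReflTransGen (Rel γ I) x (ng x) ∧ ReflTransGen (Rel γ I) (ng x) x) := by
  unfold sat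
  rw [List.all_eq_true]
  simp only [Bool.not_eq_true', Bool.and_eq_false_iff, decide_eq_false_iff_not, mem_reachG]
  constructor
  · rintro h x ⟨h1, h2⟩
    have hx : x ∈ lits I := by
      rcases ReflTransGen.cases_head h1 with h3 | ⟨c, h3, -⟩
      · exact absurd h3.symm (ng_ne x)
      · exact h3.1
    have hnx := ng_mem_lits.2 hx
    rcases h x hx with h3 | h3
    · exact h3 ⟨hx, (rtg_iff hx).2 h1⟩
    · exact h3 ⟨hnx, (rtg_iff hnx).2 h2⟩
  · intro h x hx
    have hnx := ng_mem_lits.2 hx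
    by_contra h1
    push Not at h1
    exact h x ⟨(rtg_iff hx).1 h1.1.2, (rtg_iff hnx).1 h1.2.2⟩

theorem sat_iff {γ : ℚ} {I : Inst} : sat γ I = true ↔ Chc (γ : ℝ) I := by
  rw [sat_iff']
  constructor
  · intro h
    obtain ⟨A, hA1, hA2⟩ := TwoSat.exists_model (R := Rel γ I) ng_ng
      (fun x y hxy => ⟨ng_mem_lits.2 hxy.2.1, ng_mem_lits.2 hxy.1, imp_contra hxy.2.2⟩) h
    refine ⟨fun e f => (e, f, true) ∈ A, fun e he f hf hc => ?_,
      fun e he f hf g hg hcf hcg hYf hYg => ?_⟩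
    · by_cases h1 : ((e, f, true) : Lit) ∈ A
      · exact Or.inl h1
      · right
        have h2 : ((e, f, false) : Lit) ∈ A := (hA1 _).2 h1
        exact hA2 _ _ ⟨mem_lits.2 ⟨he, hf⟩, mem_lits.2 ⟨hf, he⟩,
          imp_iff.2 (Or.inl ⟨rfl, rfl, rfl, rfl, hc⟩)⟩ h2
    · by_contra h1
      rw [not_lt] at h1
      have h2 : γ ≤ T I e f - T I e g := by exact_mod_cast h1
      have h3 : ((e, g, false) : Lit) ∈ A := hA2 (e, f, true) _ ⟨mem_lits.2 ⟨he, hf⟩,
        mem_lits.2 ⟨he, hg⟩, imp_iff.2 (Or.inr ⟨rfl, rfl, rfl, hcf, hcg, Or.inl h2⟩)⟩ hYf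
      exact (hA1 _).1 h3 hYg
  · rintro ⟨Y, h1, h2⟩ x
    refine TwoSat.no_cycle (ng := ng) (A := {l : Lit | (l.2.2 = true ∧ Y l.1 l.2.1) ∨
      (l.2.2 = false ∧ ¬ Y l.1 l.2.1)}) ?_ ?_ x
    · rintro ⟨a, b, c⟩
      cases c <;> simp [ng]
    · rintro ⟨a, b, c⟩ ⟨a', b', c'⟩ ⟨hx, hy, hxy⟩ hA
      rw [mem_lits] at hx hy
      rw [imp_iff] at hxy
      simp only [Set.mem_ofPred_eq] at hA ⊢
      simp only at hxy hx hy
      rcases hxy with ⟨rfl, rfl, rfl, rfl, hc⟩ | ⟨rfl, rfl, rfl, hc1, hc2, h3⟩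
      · simp only [Bool.false_eq_true, false_and, true_and, false_or] at hA
        left
        exact ⟨rfl, (h1 _ hx.1 _ hx.2 hc).resolve_left hA⟩
      · simp only [true_and, Bool.true_eq_false, false_and, or_false] at hA
        right
        refine ⟨rfl, fun hY => ?_⟩
        rcases h3 with h3 | h3
        · have := h2 _ hx.1 _ hx.2 _ hy.2 hc1 hc2 hA hY
          have h4 : (γ : ℝ) ≤ ((T I a b - T I a b' : ℚ) : ℝ) := by exact_mod_cast h3
          linarith
        · have := h2 _ hx.1 _ hy.2 _ hx.2 hc2 hc1 hY hA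
          have h4 : (γ : ℝ) ≤ ((T I a b' - T I a b : ℚ) : ℝ) := by exact_mod_cast h3
          linarith

/-- the distances between crossings of an edge -/
def cands (I : Inst) : List ℚ :=
  I.2.flatMap fun e => I.2.flatMap fun f => I.2.flatMap fun g =>
    if crB I e f && crB I e g then [T I e f - T I e g] else []

theorem mem_cands {I : Inst} {d : ℚ} : d ∈ cands I ↔
    ∃ e ∈ I.2, ∃ f ∈ I.2, ∃ g ∈ I.2, (Crs I e f ∧ Crs I e g) ∧ d = T I e f - T I e g := by
  unfold cands
  simp only [List.mem_flatMap]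
  refine exists_congr fun e => and_congr_right fun _ => exists_congr fun f =>
    and_congr_right fun _ => exists_congr fun g => and_congr_right fun _ => ?_
  split_ifs with h
  · rw [Bool.and_eq_true, crB_iff, crB_iff] at h
    simp [h]
  · rw [Bool.and_eq_true, crB_iff, crB_iff] at h
    simp [h]

/-- the positive infeasible distances, and zero -/
def badL (I : Inst) : List ℚ := 0 :: (cands I).filter fun d => decide (0 < d) && !(sat d I)

/-- the largest element of a list of numbers -/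
def mx (l : List ℚ) : ℚ := (l.filter fun d => l.all fun d' => decide (d' ≤ d)).head?.getD 0

theorem mx_spec {l : List ℚ} (hl : l ≠ []) : mx l ∈ l ∧ ∀ d ∈ l, d ≤ mx l := by
  have h0 : ∃ m ∈ l, ∀ d ∈ l, d ≤ m := by
    obtain ⟨m, hm, hm'⟩ := Finset.exists_max_image l.toFinset id
      (by
        obtain ⟨a, ha⟩ := List.exists_mem_of_ne_nil l hl
        exact ⟨a, List.mem_toFinset.2 ha⟩)
    exact ⟨m, List.mem_toFinset.1 hm, fun d hd => hm' d (List.mem_toFinset.2 hd)⟩
  obtain ⟨m, hm, hm'⟩ := h0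
  unfold mx
  cases h : (l.filter fun d => l.all fun d' => decide (d' ≤ d)) with
  | nil =>
    exfalso
    have : m ∈ (l.filter fun d => l.all fun d' => decide (d' ≤ d)) := by
      rw [List.mem_filter, List.all_eq_true]
      exact ⟨hm, fun d hd => decide_eq_true (hm' d hd)⟩
    rw [h] at this
    simp at this
  | cons a t =>
    have : a ∈ (l.filter fun d => l.all fun d' => decide (d' ≤ d)) := by rw [h]; simp
    rw [List.mem_filter, List.all_eq_true] at this
    simp only [List.head?_cons, Option.getD_some]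
    exact ⟨this.1, fun d hd => of_decide_eq_true (this.2 d hd)⟩

theorem Chc.mono {γ γ' : ℝ} (h : γ ≤ γ') {I : Inst} (hc : Chc γ I) : Chc γ' I := by
  obtain ⟨Y, h1, h2⟩ := hc
  exact ⟨Y, h1, fun e he f hf g hg h3 h4 h5 h6 => (h2 e he f hf g hg h3 h4 h5 h6).trans_le h⟩

theorem chc_iff {γ : ℝ} (hγ : 0 < γ) {I : Inst} : Chc γ I ↔ ((mx (badL I) : ℚ) : ℝ) < γ := by
  have hne : badL I ≠ [] := by simp [badL]
  obtain ⟨hm1, hm2⟩ := mx_spec hne
  constructor
  · intro h
    by_contra h1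
    rw [not_lt] at h1
    have h2 : (0 : ℝ) < ((mx (badL I) : ℚ) : ℝ) := hγ.trans_le h1
    have h2' : (0 : ℚ) < mx (badL I) := by exact_mod_cast h2
    have h3 : mx (badL I) ∈ (cands I).filter fun d => decide (0 < d) && !(sat d I) := by
      have h4 : mx (badL I) ∈ 0 :: (cands I).filter fun d => decide (0 < d) && !(sat d I) := hm1
      rcases List.mem_cons.1 h4 with h5 | h5
      · rw [h5] at h2'
        exact absurd h2' (lt_irrefl _)
      · exact h5
    rw [List.mem_filter, Bool.and_eq_true, Bool.not_eq_true'] at h3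
    have h4 : sat (mx (badL I)) I = true := sat_iff.2 (h.mono h1)
    rw [h4] at h3
    exact absurd h3.2.2 (by simp)
  · intro h
    classical
    by_cases hex : ∃ d ∈ cands I, γ ≤ ((d : ℚ) : ℝ)
    · obtain ⟨d0, hd0, hd0'⟩ := hex
      obtain ⟨d, hd, hdmin⟩ := Finset.exists_min_image
        ((cands I).toFinset.filter fun d => γ ≤ ((d : ℚ) : ℝ)) id
        ⟨d0, Finset.mem_filter.2 ⟨List.mem_toFinset.2 hd0, hd0'⟩⟩
      rw [Finset.mem_filter, List.mem_toFinset] at hd
      have hdpos : 0 < d := by exact_mod_cast hγ.trans_le hd.2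
      have hsat : sat d I = true := by
        by_contra h1
        have h2 : d ∈ badL I := by
          unfold badL
          refine List.mem_cons_of_mem _ ?_
          rw [List.mem_filter, Bool.and_eq_true, Bool.not_eq_true', decide_eq_true_iff]
          exact ⟨hd.1, hdpos, by simpa using h1⟩
        have h3 : ((d : ℚ) : ℝ) ≤ ((mx (badL I) : ℚ) : ℝ) := by exact_mod_cast hm2 d h2
        linarith [hd.2]
      obtain ⟨Y, h1, h2⟩ := sat_iff.1 hsat
      refine ⟨Y, h1, fun e he f hf g hg h3 h4 h5 h6 => ?_⟩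
      by_contra h7
      rw [not_lt] at h7
      have h8 := h2 e he f hf g hg h3 h4 h5 h6
      have h9 : d ≤ T I e f - T I e g := hdmin _ (Finset.mem_filter.2
        ⟨List.mem_toFinset.2 (mem_cands.2 ⟨e, he, f, hf, g, hg, ⟨h3, h4⟩, rfl⟩), h7⟩)
      have h10 : ((d : ℚ) : ℝ) ≤ ((T I e f - T I e g : ℚ) : ℝ) := by exact_mod_cast h9
      linarith
    · push Not at hex
      exact ⟨fun _ _ => True, fun _ _ _ _ _ => Or.inl trivial,
        fun e he f hf g hg h3 h4 _ _ => hex _ (mem_cands.2 ⟨e, he, f, hf, g, hg, ⟨h3, h4⟩, rfl⟩)⟩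

/-- The threshold of a drawing. -/
def thr (I : Inst) : ℚ := (1 - mx (badL I)) / 2

theorem hped_iff_thr {δ : ℝ} (hδ : 0 < δ ∧ δ < 1 / 2) {I : Inst} :
    HPED δ I ↔ IsDrawing I ∧ δ < ((thr I : ℚ) : ℝ) := by
  rw [hped_iff_gap, gap_iff_chc hδ, chc_iff (by linarith [hδ.2])]
  refine and_congr_right fun _ => ?_
  unfold thr
  push_cast
  constructor <;> intro h <;> linarith

end Q229.HP
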