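import Mathlib

/-!
# Homogeneous, not necessarily symmetric, edge drawings with stubs

The input is a straight-line drawing: a list of points with rational coordinates and a list of
pairs of indices of points.
-/

set_option autoImplicit false

namespace Q229.HP

/-- The Euclidean plane. -/
abbrev Pt : Type := EuclideanSpace ℝ (Fin 2)

/-- An input: the coordinates of the vertices, and the edges as pairs of indices of vertices. -/
abbrev Inst : Type := List (ℚ × ℚ) × List (ℕ × ℕ)

/-- The position of the vertex with index `v` (the origin if there is no such vertex). -/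
noncomputable def pos (I : Inst) (v : ℕ) : Pt :=
  !₂[((I.1.getD v (0, 0)).1 : ℝ), ((I.1.getD v (0, 0)).2 : ℝ)]

/-- The input is a straight-line drawing of a simple graph: the vertices are placed at distinct
points, every edge is listed once (with its smaller endpoint first), and no edge passes through a
vertex other than its two endpoints. -/
def IsDrawing (I : Inst) : Prop :=
  I.1.Nodup ∧ I.2.Nodup ∧ (∀ e ∈ I.2, e.1 < e.2 ∧ e.2 < I.1.length) ∧
    ∀ e ∈ I.2, ∀ v < I.1.length, v ≠ e.1 → v ≠ e.2 → pos I v ∉ segment ℝ (pos I e.1) (pos I e.2)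

/-- The length of an edge. -/
noncomputable def len (I : Inst) (e : ℕ × ℕ) : ℝ := dist (pos I e.1) (pos I e.2)

/-- What is drawn of the edge `e` if its two stubs have lengths `a` (at its first endpoint) and
`b` (at its second endpoint). -/
def stubs (I : Inst) (e : ℕ × ℕ) (a b : ℝ) : Set Pt :=
  {x | x ∈ segment ℝ (pos I e.1) (pos I e.2) ∧ (dist (pos I e.1) x ≤ a ∨ dist x (pos I e.2) ≤ b)}

/-- The point `x` is the position of a common endpoint of the edges `e` and `f`. -/
def CommonEnd (I : Inst) (e f : ℕ × ℕ) (x : Pt) : Prop :=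
  ∃ v, (v = e.1 ∨ v = e.2) ∧ (v = f.1 ∨ v = f.2) ∧ x = pos I v

/-- The input is a straight-line drawing that admits a `δ`-HPED: one can choose for every edge two
stub lengths `a, b ≥ 0` with `a + b = 2 δ |uv|` so that the stubs of distinct edges share no point
other than a common endpoint. -/
def HPED (δ : ℝ) (I : Inst) : Prop :=
  IsDrawing I ∧ ∃ a b : ℕ × ℕ → ℝ,
    (∀ e ∈ I.2, 0 ≤ a e ∧ 0 ≤ b e ∧ a e + b e = 2 * δ * len I e) ∧
    ∀ e ∈ I.2, ∀ f ∈ I.2, e ≠ f → ∀ x, x ∈ stubs I e (a e) (b e) → x ∈ stubs I f (a f) (b f) →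
      CommonEnd I e f x

end Q229.HP
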