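import Pool.Agent.Q229.HP.Geo2

/-!
# The choice of the stubs as a choice of gaps, and as a 2-SAT instance
-/

set_option autoImplicit false

namespace Q229.HP

theorem IsDrawing.len_pos {I : Inst} (h : IsDrawing I) {e : ℕ × ℕ} (he : e ∈ I.2) : 0 < len I e :=
  dist_pos.2 (h.ne he)

theorem dist_l (A B : Pt) {t : ℝ} (ht : 0 ≤ t) : dist A (AffineMap.lineMap A B t) = t * dist A B := by
  rw [dist_left_lineMap, Real.norm_eq_abs, abs_of_nonneg ht]

theorem dist_r (A B : Pt) {t : ℝ} (ht : t ≤ 1) :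
    dist (AffineMap.lineMap A B t : Pt) B = (1 - t) * dist A B := by
  rw [dist_lineMap_right, Real.norm_eq_abs, abs_of_nonneg (by linarith)]

/-- the gap of every crossing -/
def Gap (δ : ℝ) (I : Inst) : Prop :=
  ∃ α : ℕ × ℕ → ℝ, (∀ e ∈ I.2, 0 ≤ α e ∧ α e ≤ 2 * δ) ∧
    ∀ e ∈ I.2, ∀ f ∈ I.2, Crs I e f →
      (α e < (T I e f : ℚ) ∧ ((T I e f : ℚ) : ℝ) < α e + (1 - 2 * δ)) ∨
      (α f < (T I f e : ℚ) ∧ ((T I f e : ℚ) : ℝ) < α f + (1 - 2 * δ))

theorem hped_iff_gap {δ : ℝ} {I : Inst} : HPED δ I ↔ IsDrawing I ∧ Gap δ I := by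
  unfold HPED
  refine and_congr_right fun h => ⟨?_, ?_⟩
  · rintro ⟨a, b, hab, hx⟩
    refine ⟨fun e => a e / len I e, fun e he => ?_, fun e he f hf hc => ?_⟩
    · have hl := h.len_pos he
      obtain ⟨h1, h2, h3⟩ := hab e he
      refine ⟨div_nonneg h1 hl.le, ?_⟩
      rw [div_le_iff₀ hl]
      linarith
    · have hne : e ≠ f := by rintro rfl; exact not_crs_self I e hc
      have ht1 : (0 : ℝ) < ((T I e f : ℚ) : ℝ) ∧ ((T I e f : ℚ) : ℝ) < 1 :=
        ⟨by exact_mod_cast hc.2.1.1, by exact_mod_cast hc.2.1.2⟩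
      have hs1 : (0 : ℝ) < ((T I f e : ℚ) : ℝ) ∧ ((T I f e : ℚ) : ℝ) < 1 :=
        ⟨by exact_mod_cast hc.2.2.1, by exact_mod_cast hc.2.2.2⟩
      have hp := hc.point
      set t : ℝ := ((T I e f : ℚ) : ℝ) with ht
      set s : ℝ := ((T I f e : ℚ) : ℝ) with hs
      set x : Pt := AffineMap.lineMap (pos I e.1) (pos I e.2) t with hxdef
      have hxe : x ∈ segment ℝ (pos I e.1) (pos I e.2) := mem_seg.2 ⟨t, ⟨ht1.1.le, ht1.2.le⟩, rfl⟩
      have hxf : x ∈ segment ℝ (pos I f.1) (pos I f.2) := mem_seg.2 ⟨s, ⟨hs1.1.le, hs1.2.le⟩, hp⟩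
      have hno : ¬ CommonEnd I e f x := by
        rintro ⟨v, hv, -, hxv⟩
        rcases hv with rfl | rfl
        · have : t = 0 := by
            apply lm_inj (h.ne he)
            rw [lm_zero, ← hxdef, hxv]
          linarith [ht1.1]
        · have : t = 1 := by
            apply lm_inj (h.ne he)
            rw [lm_one, ← hxdef, hxv]
          linarith [ht1.2]
      have aux : ∀ (g : ℕ × ℕ), g ∈ I.2 → ∀ r : ℝ, 0 < r → r < 1 →
          x = AffineMap.lineMap (pos I g.1) (pos I g.2) r → x ∉ stubs I g (a g) (b g) →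
          a g / len I g < r ∧ r < a g / len I g + (1 - 2 * δ) := by
        intro g hg r hr0 hr1 hxr hn
        have hl := h.len_pos hg
        obtain ⟨h1, h2, h3⟩ := hab g hg
        have hn' : ¬ (dist (pos I g.1) x ≤ a g ∨ dist x (pos I g.2) ≤ b g) := fun h4 =>
          hn ⟨mem_seg.2 ⟨r, ⟨hr0.le, hr1.le⟩, hxr⟩, h4⟩
        push Not at hn'
        rw [hxr, dist_l _ _ hr0.le, dist_r _ _ hr1.le] at hn'
        change a g < r * len I g ∧ b g < (1 - r) * len I g at hn'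
        refine ⟨(div_lt_iff₀ hl).2 hn'.1, ?_⟩
        have h5 : r - (1 - 2 * δ) < a g / len I g := by
          rw [lt_div_iff₀ hl]
          nlinarith [hn'.2]
        linarith
      by_cases h1 : x ∈ stubs I e (a e) (b e)
      · right
        refine aux f hf s hs1.1 hs1.2 hp fun h2 => hno (hx e he f hf hne x h1 h2)
      · left
        exact aux e he t ht1.1 ht1.2 rfl h1
  · rintro ⟨α, h1, h2⟩
    refine ⟨fun e => α e * len I e, fun e => (2 * δ - α e) * len I e, fun e he => ?_, ?_⟩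
    · have hl := h.len_pos he
      obtain ⟨h3, h4⟩ := h1 e he
      refine ⟨by positivity, mul_nonneg (by linarith) hl.le, by ring⟩
    · intro e he f hf hne x hxe hxf
      by_contra hno
      obtain ⟨hc, hx1, hx2⟩ := crossing h he hf hne hxe.1 hxf.1 hno
      have aux : ∀ (g : ℕ × ℕ), g ∈ I.2 → ∀ r : ℝ, 0 < r → r < 1 →
          x = AffineMap.lineMap (pos I g.1) (pos I g.2) r →
          (α g < r ∧ r < α g + (1 - 2 * δ)) →
          ¬ (dist (pos I g.1) x ≤ α g * len I g ∨ dist x (pos I g.2) ≤ (2 * δ - α g) * len I g) := by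
        intro g hg r hr0 hr1 hxr hr
        have hl := h.len_pos hg
        push Not
        rw [hxr, dist_l _ _ hr0.le, dist_r _ _ hr1.le]
        change α g * len I g < r * len I g ∧ (2 * δ - α g) * len I g < (1 - r) * len I g
        exact ⟨mul_lt_mul_of_pos_right hr.1 hl, mul_lt_mul_of_pos_right (by linarith [hr.2]) hl⟩
      have ht1 : (0 : ℝ) < (T I e f : ℚ) ∧ ((T I e f : ℚ) : ℝ) < 1 :=
        ⟨by exact_mod_cast hc.2.1.1, by exact_mod_cast hc.2.1.2⟩
      have hs1 : (0 : ℝ) < (T I f e : ℚ) ∧ ((T I f e : ℚ) : ℝ) < 1 :=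
        ⟨by exact_mod_cast hc.2.2.1, by exact_mod_cast hc.2.2.2⟩
      rcases h2 e he f hf hc with h3 | h3
      · exact aux e he _ ht1.1 ht1.2 hx1 h3 hxe.2
      · exact aux f hf _ hs1.1 hs1.2 hx2 h3 hxf.2

/-- a window of length `γ` around finitely many numbers -/
theorem window {γ : ℝ} (hγ : 0 < γ ∧ γ < 1) (s : Finset ℝ) (hs : ∀ x ∈ s, 0 < x ∧ x < 1)
    (hp : ∀ x ∈ s, ∀ y ∈ s, x - y < γ) :
    ∃ α : ℝ, (0 ≤ α ∧ α ≤ 1 - γ) ∧ ∀ x ∈ s, α < x ∧ x < α + γ := by
  rcases s.eq_empty_or_nonempty with rfl | hne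
  · exact ⟨0, ⟨le_refl _, by linarith [hγ.2]⟩, by simp⟩
  · have hm := s.min'_mem hne
    have hM := s.max'_mem hne
    set m := s.min' hne
    set M := s.max' hne
    obtain ⟨m0, m1⟩ := hs m hm
    obtain ⟨M0, M1⟩ := hs M hM
    have hMm := hp M hM m hm
    have hlo : max 0 (M - γ) < min m (1 - γ) := by
      rw [max_lt_iff, lt_min_iff, lt_min_iff]
      refine ⟨⟨m0, by linarith [hγ.2]⟩, by linarith, by linarith⟩
    have h1 := le_max_left 0 (M - γ)
    have h2 := le_max_right 0 (M - γ)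
    have h3 := min_le_left m (1 - γ)
    have h4 := min_le_right m (1 - γ)
    refine ⟨(max 0 (M - γ) + min m (1 - γ)) / 2, ⟨by linarith, by linarith⟩, fun x hx => ?_⟩
    have h5 : m ≤ x := s.min'_le x hx
    have h6 : x ≤ M := s.le_max' x hx
    constructor <;> linarith

/-- the choice of the edge whose gap covers a crossing -/
def Chc (γ : ℝ) (I : Inst) : Prop :=
  ∃ Y : (ℕ × ℕ) → (ℕ × ℕ) → Prop,
    (∀ e ∈ I.2, ∀ f ∈ I.2, Crs I e f → Y e f ∨ Y f e) ∧
    ∀ e ∈ I.2, ∀ f ∈ I.2, ∀ g ∈ I.2, Crs I e f → Crs I e g → Y e f → Y e g →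
      ((T I e f - T I e g : ℚ) : ℝ) < γ

theorem gap_iff_chc {δ : ℝ} (hδ : 0 < δ ∧ δ < 1 / 2) {I : Inst} :
    Gap δ I ↔ Chc (1 - 2 * δ) I := by
  classical
  constructor
  · rintro ⟨α, -, h2⟩
    refine ⟨fun e f => α e < (T I e f : ℚ) ∧ ((T I e f : ℚ) : ℝ) < α e + (1 - 2 * δ), h2, ?_⟩
    intro e he f hf g hg _ _ h3 h4
    push_cast
    linarith [h3.2, h4.1]
  · rintro ⟨Y, h1, h2⟩
    have key : ∀ e : ℕ × ℕ, ∃ α : ℝ, e ∈ I.2 → (0 ≤ α ∧ α ≤ 2 * δ) ∧
        ∀ f ∈ I.2, Crs I e f → Y e f → α < (T I e f : ℚ) ∧ ((T I e f : ℚ) : ℝ) < α + (1 - 2 * δ) := by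
      intro e
      by_cases he : e ∈ I.2
      · obtain ⟨α, hα, hα'⟩ := window (γ := 1 - 2 * δ) ⟨by linarith [hδ.2], by linarith [hδ.1]⟩
          ((I.2.filter fun f => decide (Crs I e f ∧ Y e f)).map
            (fun f => ((T I e f : ℚ) : ℝ))).toFinset (by
              intro x hx
              rw [List.mem_toFinset, List.mem_map] at hx
              obtain ⟨f, hf, rfl⟩ := hx
              rw [List.mem_filter, decide_eq_true_eq] at hf
              exact ⟨by exact_mod_cast hf.2.1.2.1.1, by exact_mod_cast hf.2.1.2.1.2⟩) (by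
              intro x hx y hy
              rw [List.mem_toFinset, List.mem_map] at hx hy
              obtain ⟨f, hf, rfl⟩ := hx
              obtain ⟨g, hg, rfl⟩ := hy
              rw [List.mem_filter, decide_eq_true_eq] at hf hg
              have := h2 e he f hf.1 g hg.1 hf.2.1 hg.2.1 hf.2.2 hg.2.2
              push_cast at this
              exact this)
        refine ⟨α, fun _ => ⟨⟨hα.1, by linarith [hα.2]⟩, fun f hf hc hY => ?_⟩⟩
        exact hα' _ (List.mem_toFinset.2 (List.mem_map.2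
          ⟨f, List.mem_filter.2 ⟨hf, decide_eq_true ⟨hc, hY⟩⟩, rfl⟩))
      · exact ⟨0, fun h => absurd h he⟩
    choose α hα using key
    refine ⟨α, fun e he => (hα e he).1, fun e he f hf hc => ?_⟩
    rcases h1 e he f hf hc with h3 | h3
    · exact Or.inl ((hα e he).2 f hf hc h3)
    · exact Or.inr ((hα f hf).2 e he hc.symm h3)

end Q229.HP
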