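import Pool.Agent.Q229.HP.Defs

/-!
# Crossings and gaps
-/

set_option autoImplicit false

namespace Q229.HP

/-- coordinates of a vertex -/
def co (I : Inst) (v : ℕ) : ℚ × ℚ := I.1.getD v (0, 0)

/-- direction of an edge -/
def dir (I : Inst) (e : ℕ × ℕ) : ℚ × ℚ :=
  ((co I e.2).1 - (co I e.1).1, (co I e.2).2 - (co I e.1).2)

/-- cross product -/
def cr (u v : ℚ × ℚ) : ℚ := u.1 * v.2 - u.2 * v.1

/-- the fraction at which `e` is crossed by (the line of) `f` -/
def T (I : Inst) (e f : ℕ × ℕ) : ℚ :=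
  cr ((co I f.1).1 - (co I e.1).1, (co I f.1).2 - (co I e.1).2) (dir I f) / cr (dir I e) (dir I f)

/-- the edges cross -/
def Crs (I : Inst) (e f : ℕ × ℕ) : Prop :=
  cr (dir I e) (dir I f) ≠ 0 ∧ (0 < T I e f ∧ T I e f < 1) ∧ 0 < T I f e ∧ T I f e < 1

theorem cr_comm (u v : ℚ × ℚ) : cr u v = - cr v u := by unfold cr; ring

theorem Crs.symm {I : Inst} {e f : ℕ × ℕ} (h : Crs I e f) : Crs I f e := by
  refine ⟨?_, h.2.2, h.2.1⟩
  rw [cr_comm]
  exact neg_ne_zero.2 h.1

theorem not_crs_self (I : Inst) (e : ℕ × ℕ) : ¬ Crs I e e := by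
  rintro ⟨h, -⟩
  apply h
  unfold cr
  ring

theorem pos_zero (I : Inst) (v : ℕ) : pos I v 0 = ((co I v).1 : ℝ) := rfl

theorem pos_one (I : Inst) (v : ℕ) : pos I v 1 = ((co I v).2 : ℝ) := rfl

theorem pt_ext {x y : Pt} (h0 : x 0 = y 0) (h1 : x 1 = y 1) : x = y := by
  ext i
  fin_cases i
  · exact h0
  · exact h1

theorem lm_apply (A B : Pt) (t : ℝ) (i : Fin 2) :
    AffineMap.lineMap A B t i = A i + t * (B i - A i) := by
  rw [AffineMap.lineMap_apply]
  simp only [vsub_eq_sub, vadd_eq_add, PiLp.add_apply, PiLp.smul_apply, PiLp.sub_apply, smul_eq_mul]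
  ring

theorem mem_seg {A B x : Pt} : x ∈ segment ℝ A B ↔
    ∃ t : ℝ, (0 ≤ t ∧ t ≤ 1) ∧ x = AffineMap.lineMap A B t := by
  rw [segment_eq_image_lineMap]
  constructor
  · rintro ⟨t, ⟨h0, h1⟩, rfl⟩
    exact ⟨t, ⟨h0, h1⟩, rfl⟩
  · rintro ⟨t, ⟨h0, h1⟩, rfl⟩
    exact ⟨t, ⟨h0, h1⟩, rfl⟩

theorem lm_inj {A B : Pt} (h : A ≠ B) {s t : ℝ}
    (hst : (AffineMap.lineMap A B s : Pt) = AffineMap.lineMap A B t) : s = t :=
  AffineMap.lineMap_injective ℝ h hst

theorem co_inj {I : Inst} (h : I.1.Nodup) {v w : ℕ} (hv : v < I.1.length) (hw : w < I.1.length)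
    (hvw : pos I v = pos I w) : v = w := by
  have h0 : ((co I v).1 : ℝ) = (co I w).1 := by
    rw [← pos_zero, ← pos_zero, hvw]
  have h1 : ((co I v).2 : ℝ) = (co I w).2 := by
    rw [← pos_one, ← pos_one, hvw]
  have h2 : co I v = co I w := Prod.ext (by exact_mod_cast h0) (by exact_mod_cast h1)
  unfold co at h2
  rw [List.getD_eq_getElem _ _ hv, List.getD_eq_getElem _ _ hw] at h2
  exact (h.getElem_inj_iff).1 h2

theorem aux_div {a u c v N M D : ℚ} (hD : D ≠ 0) (h : a * D + N * u = c * D + M * v) :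
    a + N / D * u = c + M / D * v := by
  field_simp
  linarith

/-- the crossing point, seen from both edges -/
theorem Crs.point {I : Inst} {e f : ℕ × ℕ} (h : Crs I e f) :
    (AffineMap.lineMap (pos I e.1) (pos I e.2) ((T I e f : ℚ) : ℝ) : Pt) =
      AffineMap.lineMap (pos I f.1) (pos I f.2) ((T I f e : ℚ) : ℝ) := by
  have hd : cr (dir I e) (dir I f) ≠ 0 := h.1
  have hT : T I e f = cr ((co I f.1).1 - (co I e.1).1, (co I f.1).2 - (co I e.1).2) (dir I f) /
      cr (dir I e) (dir I f) := rfl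
  have hT' : T I f e = cr ((co I f.1).1 - (co I e.1).1, (co I f.1).2 - (co I e.1).2) (dir I e) /
      cr (dir I e) (dir I f) := by
    have : T I f e = cr ((co I e.1).1 - (co I f.1).1, (co I e.1).2 - (co I f.1).2) (dir I e) /
      cr (dir I f) (dir I e) := rfl
    rw [this, cr_comm (dir I f), div_neg, ← neg_div]
    congr 1
    unfold cr
    ring
  apply pt_ext
  · rw [lm_apply, lm_apply]
    simp only [pos_zero]
    have : (co I e.1).1 + T I e f * ((co I e.2).1 - (co I e.1).1) =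
        (co I f.1).1 + T I f e * ((co I f.2).1 - (co I f.1).1) := by
      rw [hT, hT']
      apply aux_div hd
      unfold cr dir
      ring
    exact_mod_cast this
  · rw [lm_apply, lm_apply]
    simp only [pos_one]
    have : (co I e.1).2 + T I e f * ((co I e.2).2 - (co I e.1).2) =
        (co I f.1).2 + T I f e * ((co I f.2).2 - (co I f.1).2) := by
      rw [hT, hT']
      apply aux_div hd
      unfold cr dir
      ring
    exact_mod_cast this

/-- equations of an intersection point -/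
theorem eqs {I : Inst} {e f : ℕ × ℕ} {t s : ℝ}
    (h : (AffineMap.lineMap (pos I e.1) (pos I e.2) t : Pt) =
      AffineMap.lineMap (pos I f.1) (pos I f.2) s) :
    t * ((cr (dir I e) (dir I f) : ℚ) : ℝ) =
      (cr ((co I f.1).1 - (co I e.1).1, (co I f.1).2 - (co I e.1).2) (dir I f) : ℚ) := by
  have h0 := congrArg (fun x : Pt => x 0) h
  have h1 := congrArg (fun x : Pt => x 1) h
  simp only [lm_apply] at h0 h1
  rw [pos_zero, pos_zero, pos_zero, pos_zero] at h0
  rw [pos_one, pos_one, pos_one, pos_one] at h1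
  unfold cr dir
  push_cast
  linear_combination (((co I f.2).2 : ℝ) - (co I f.1).2) * h0 -
    (((co I f.2).1 : ℝ) - (co I f.1).1) * h1

theorem T_eq {I : Inst} {e f : ℕ × ℕ} {t s : ℝ}
    (h : (AffineMap.lineMap (pos I e.1) (pos I e.2) t : Pt) =
      AffineMap.lineMap (pos I f.1) (pos I f.2) s) (hd : cr (dir I e) (dir I f) ≠ 0) :
    t = (T I e f : ℚ) := by
  have h1 := eqs h
  unfold T
  push_cast
  rw [eq_div_iff (by exact_mod_cast hd)]
  exact h1

end Q229.HP
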