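import Pool.Agent.Q229.HP.Geo

/-!
# Two edges of a drawing that share a point cross properly
-/

set_option autoImplicit false

namespace Q229.HP

theorem coll_lt {τ σ t : ℝ} (ht : 0 < t ∧ t < 1) (h : τ < t ∧ t < σ)
    (f1 : 0 ≤ τ → τ ≤ 1 → τ = 0 ∨ τ = 1) (f2 : 0 ≤ σ → σ ≤ 1 → σ = 0 ∨ σ = 1)
    (f3 : τ ≤ 0 → 0 ≤ σ → τ = 0 ∨ σ = 0) (f4 : τ ≤ 1 → 1 ≤ σ → τ = 1 ∨ σ = 1) :
    τ = 0 ∧ σ = 1 := by
  obtain ⟨h1, h2⟩ := ht
  obtain ⟨h3, h4⟩ := h
  constructor
  · by_cases h5 : 0 ≤ τ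
    · rcases f1 h5 (by linarith) with h6 | h6
      · exact h6
      · linarith
    · rcases f3 (by linarith) (by linarith) with h6 | h6
      · exact h6
      · linarith
  · by_cases h5 : σ ≤ 1
    · rcases f2 (by linarith) h5 with h6 | h6
      · linarith
      · exact h6
    · rcases f4 (by linarith) (by linarith) with h6 | h6
      · linarith
      · exact h6

theorem parallel {u0 u1 v0 v1 : ℝ} (h : u0 * v1 - u1 * v0 = 0) (hu : u0 ≠ 0 ∨ u1 ≠ 0) :
    ∃ c : ℝ, v0 = c * u0 ∧ v1 = c * u1 := by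
  have hp : u0 ^ 2 + u1 ^ 2 ≠ 0 := by
    rcases hu with h1 | h1
    · have : 0 < u0 ^ 2 := by positivity
      positivity
    · have : 0 < u1 ^ 2 := by positivity
      positivity
  refine ⟨(u0 * v0 + u1 * v1) / (u0 ^ 2 + u1 ^ 2), ?_, ?_⟩
  · rw [div_mul_eq_mul_div, eq_div_iff hp]
    linear_combination (-u1) * h
  · rw [div_mul_eq_mul_div, eq_div_iff hp]
    linear_combination u0 * h

theorem lm_zero (A B : Pt) : (AffineMap.lineMap A B (0 : ℝ) : Pt) = A := AffineMap.lineMap_apply_zero _ _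

theorem lm_one (A B : Pt) : (AffineMap.lineMap A B (1 : ℝ) : Pt) = B := AffineMap.lineMap_apply_one _ _

/-- edges are straight segments between different points -/
theorem IsDrawing.ne {I : Inst} (h : IsDrawing I) {e : ℕ × ℕ} (he : e ∈ I.2) :
    pos I e.1 ≠ pos I e.2 := by
  intro h1
  obtain ⟨h2, h3⟩ := h.2.2.1 e he
  exact h2.ne (co_inj h.1 (h2.trans h3) h3 h1)

theorem IsDrawing.vert {I : Inst} (h : IsDrawing I) {e : ℕ × ℕ} (he : e ∈ I.2) {v : ℕ}
    (hv : v < I.1.length) (hs : pos I v ∈ segment ℝ (pos I e.1) (pos I e.2)) : v = e.1 ∨ v = e.2 := by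
  by_contra h1
  push Not at h1
  exact h.2.2.2 e he v hv h1.1 h1.2 hs

theorem crossing {I : Inst} (h : IsDrawing I) {e f : ℕ × ℕ} (he : e ∈ I.2) (hf : f ∈ I.2)
    (hne : e ≠ f) {x : Pt} (hxe : x ∈ segment ℝ (pos I e.1) (pos I e.2))
    (hxf : x ∈ segment ℝ (pos I f.1) (pos I f.2)) (hc : ¬ CommonEnd I e f x) :
    Crs I e f ∧ x = AffineMap.lineMap (pos I e.1) (pos I e.2) ((T I e f : ℚ) : ℝ) ∧
      x = AffineMap.lineMap (pos I f.1) (pos I f.2) ((T I f e : ℚ) : ℝ) := by
  obtain ⟨e1, e2⟩ := h.2.2.1 e he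
  obtain ⟨f1, f2⟩ := h.2.2.1 f hf
  have hAB := h.ne he
  have hCD := h.ne hf
  obtain ⟨t, ht, hxt⟩ := mem_seg.1 hxe
  obtain ⟨s, hs, hxs⟩ := mem_seg.1 hxf
  -- the point is not an endpoint
  have key : ∀ (g : ℕ × ℕ), (g = e ∨ g = f) → x ≠ pos I g.1 ∧ x ≠ pos I g.2 := by
    intro g hg
    constructor
    · intro hx
      apply hc
      rcases hg with rfl | rfl
      · exact ⟨g.1, Or.inl rfl, h.vert hf (e1.trans e2) (hx ▸ hxf), hx⟩
      · exact ⟨g.1, h.vert he (f1.trans f2) (hx ▸ hxe), Or.inl rfl, hx⟩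
    · intro hx
      apply hc
      rcases hg with rfl | rfl
      · exact ⟨g.2, Or.inr rfl, h.vert hf e2 (hx ▸ hxf), hx⟩
      · exact ⟨g.2, h.vert he f2 (hx ▸ hxe), Or.inr rfl, hx⟩
  have ht' : 0 < t ∧ t < 1 := by
    constructor
    · refine lt_of_le_of_ne ht.1 fun h0 => (key e (Or.inl rfl)).1 ?_
      rw [hxt, ← h0, lm_zero]
    · refine lt_of_le_of_ne ht.2 fun h0 => (key e (Or.inl rfl)).2 ?_
      rw [hxt, h0, lm_one]
  have hs' : 0 < s ∧ s < 1 := by
    constructor
    · refine lt_of_le_of_ne hs.1 fun h0 => (key f (Or.inr rfl)).1 ?_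
      rw [hxs, ← h0, lm_zero]
    · refine lt_of_le_of_ne hs.2 fun h0 => (key f (Or.inr rfl)).2 ?_
      rw [hxs, h0, lm_one]
  have hts : (AffineMap.lineMap (pos I e.1) (pos I e.2) t : Pt) =
      AffineMap.lineMap (pos I f.1) (pos I f.2) s := by rw [← hxt, ← hxs]
  have hd : cr (dir I e) (dir I f) ≠ 0 := by
    intro hd
    have hd' : ((co I e.2).1 - (co I e.1).1 : ℝ) * ((co I f.2).2 - (co I f.1).2) -
        ((co I e.2).2 - (co I e.1).2) * ((co I f.2).1 - (co I f.1).1) = 0 := by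
      unfold cr dir at hd
      simp only at hd
      exact_mod_cast hd
    have hu : ((co I e.2).1 - (co I e.1).1 : ℝ) ≠ 0 ∨ ((co I e.2).2 - (co I e.1).2 : ℝ) ≠ 0 := by
      by_contra h0
      push Not at h0
      apply hAB
      apply pt_ext
      · rw [pos_zero, pos_zero]; linarith [h0.1]
      · rw [pos_one, pos_one]; linarith [h0.2]
    obtain ⟨c, hc0, hc1⟩ := parallel hd' hu
    have h0 := congrArg (fun x : Pt => x 0) hts
    have h1 := congrArg (fun x : Pt => x 1) hts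
    simp only [lm_apply] at h0 h1
    rw [pos_zero, pos_zero, pos_zero, pos_zero] at h0
    rw [pos_one, pos_one, pos_one, pos_one] at h1
    have hC : pos I f.1 = AffineMap.lineMap (pos I e.1) (pos I e.2) (t - s * c) := by
      apply pt_ext
      · rw [lm_apply, pos_zero, pos_zero, pos_zero]
        linear_combination (-1) * h0 - s * hc0
      · rw [lm_apply, pos_one, pos_one, pos_one]
        linear_combination (-1) * h1 - s * hc1
    have hD : pos I f.2 = AffineMap.lineMap (pos I e.1) (pos I e.2) (t - s * c + c) := by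
      apply pt_ext
      · rw [lm_apply, pos_zero, pos_zero, pos_zero]
        linear_combination (-1) * h0 - s * hc0 + hc0
      · rw [lm_apply, pos_one, pos_one, pos_one]
        linear_combination (-1) * h1 - s * hc1 + hc1
    set τ := t - s * c with hτ
    set σ := τ + c with hσ
    have hcne : c ≠ 0 := by
      intro h2
      apply hCD
      rw [hC, hD, hσ, h2, add_zero]
    -- the basic facts
    have g1 : ∀ ρ : ℝ, ∀ v < I.1.length, pos I v = AffineMap.lineMap (pos I e.1) (pos I e.2) ρ →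
        0 ≤ ρ → ρ ≤ 1 → ρ = 0 ∨ ρ = 1 := by
      intro ρ v hv hp h2 h3
      have h4 : pos I v ∈ segment ℝ (pos I e.1) (pos I e.2) := mem_seg.2 ⟨ρ, ⟨h2, h3⟩, hp⟩
      rcases h.vert he hv h4 with h5 | h5
      · left
        apply lm_inj hAB
        rw [← hp, lm_zero, h5]
      · right
        apply lm_inj hAB
        rw [← hp, lm_one, h5]
    have g2 : ∀ (ρ : ℝ) (v : ℕ), v < I.1.length →
        pos I v = AffineMap.lineMap (pos I e.1) (pos I e.2) ρ →
        (τ ≤ ρ ∧ ρ ≤ σ ∨ σ ≤ ρ ∧ ρ ≤ τ) → τ = ρ ∨ σ = ρ := by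
      intro ρ v hv hp h2
      have h4 : pos I v ∈ segment ℝ (pos I f.1) (pos I f.2) := by
        refine mem_seg.2 ⟨(ρ - τ) / c, ?_, ?_⟩
        · rcases h2 with ⟨h2, h3⟩ | ⟨h2, h3⟩
          · have hc' : 0 < c := lt_of_le_of_ne (by linarith) (Ne.symm hcne)
            refine ⟨div_nonneg (by linarith) hc'.le, ?_⟩
            rw [div_le_one hc']
            linarith
          · have hc' : c < 0 := lt_of_le_of_ne (by linarith) hcne
            refine ⟨div_nonneg_of_nonpos (by linarith) hc'.le, ?_⟩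
            rw [div_le_one_of_neg hc']
            linarith
        · rw [hC, hD, hp]
          apply pt_ext
          · simp only [lm_apply]
            rw [hσ]
            field_simp
            ring
          · simp only [lm_apply]
            rw [hσ]
            field_simp
            ring
      rcases h.vert hf hv h4 with h5 | h5
      · left
        apply lm_inj hAB
        rw [← hC, ← hp, h5]
      · right
        apply lm_inj hAB
        rw [← hD, ← hp, h5]
    have hA : pos I e.1 = AffineMap.lineMap (pos I e.1) (pos I e.2) (0 : ℝ) := (lm_zero _ _).symm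
    have hB : pos I e.2 = AffineMap.lineMap (pos I e.1) (pos I e.2) (1 : ℝ) := (lm_one _ _).symm
    have htt : t = τ + s * c := by rw [hτ]; ring
    rcases lt_or_gt_of_ne hcne with hc' | hc'
    · -- opposite directions
      have h6 := coll_lt (τ := σ) (σ := τ) ht' ⟨by nlinarith [hs'.2], by nlinarith [hs'.1]⟩
        (g1 σ f.2 f2 hD) (g1 τ f.1 (f1.trans f2) hC)
        (fun a b => (g2 0 e.1 (e1.trans e2) hA (Or.inr ⟨a, b⟩)).symm)
        (fun a b => (g2 1 e.2 e2 hB (Or.inr ⟨a, b⟩)).symm)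
      have h7 : e.1 = f.2 := by
        apply co_inj h.1 (e1.trans e2) f2
        rw [hD, h6.1, lm_zero]
      have h8 : e.2 = f.1 := by
        apply co_inj h.1 e2 (f1.trans f2)
        rw [hC, h6.2, lm_one]
      omega
    · have h6 := coll_lt (τ := τ) (σ := σ) ht' ⟨by nlinarith [hs'.1], by nlinarith [hs'.2]⟩
        (g1 τ f.1 (f1.trans f2) hC) (g1 σ f.2 f2 hD)
        (fun a b => g2 0 e.1 (e1.trans e2) hA (Or.inl ⟨a, b⟩))
        (fun a b => g2 1 e.2 e2 hB (Or.inl ⟨a, b⟩))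
      have h7 : e.1 = f.1 := by
        apply co_inj h.1 (e1.trans e2) (f1.trans f2)
        rw [hC, h6.1, lm_zero]
      have h8 : e.2 = f.2 := by
        apply co_inj h.1 e2 f2
        rw [hD, h6.2, lm_one]
      exact hne (Prod.ext h7 h8)
  have hd2 : cr (dir I f) (dir I e) ≠ 0 := by rw [cr_comm]; exact neg_ne_zero.2 hd
  have hT := T_eq hts hd
  have hT' := T_eq hts.symm hd2
  refine ⟨⟨hd, ⟨?_, ?_⟩, ?_, ?_⟩, ?_, ?_⟩
  · exact_mod_cast hT ▸ ht'.1
  · exact_mod_cast hT ▸ ht'.2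
  · exact_mod_cast hT' ▸ hs'.1
  · exact_mod_cast hT' ▸ hs'.2
  · rw [← hT]; exact hxt
  · rw [← hT']; exact hxs

end Q229.HP
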