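import Pool.Agent.Q229.RatP
import Pool.Agent.W954.Sav.Search

/-!
# Threshold problems are not `NP`-hard unless `P = NP`

If membership of `a` is the inequality `δ < sc a` for a polynomial-time computable score `sc` and a
fixed real number `δ` (which may be uncomputable), then the problem cannot be `NP`-hard unless
`P = NP`: of two instances, the one with the larger score is the more likely to be a member.
-/

set_option autoImplicit false

namespace Q229.Sel

open Pool.Agent Pool.Agent.NPC Pool.Agent.W954.Sav

/-- A typed reduction to a threshold problem. -/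
theorem exists_score {α β : Type} [TEnc α] [TDec α] [TEnc β] {P : α → Prop} {E : β → Prop}
    {sc : α → ℚ} (hsc : Poly sc) {δ : ℝ} (hδ : 0 ≤ δ) (h : ∀ a, P a ↔ δ < (sc a : ℝ))
    (hard : NPHardP P) (hE : InNPP E) :
    ∃ sc' : β → ℚ, Poly sc' ∧ ∀ b, E b ↔ δ < (sc' b : ℝ) := by
  obtain ⟨f, hf, hf'⟩ := hard _ hE
  refine ⟨fun b => match unbits α (f (bits b)) with | none => -1 | some a => sc a, ?_, fun b => ?_⟩
  · have h1 : Poly (fun b : β => f (bits b)) := (H622R2.poly_of_polyTime hf).comp (poly_bits Poly.id)
    exact NPC.Poly.optCases (o := fun b : β => unbits α (f (bits b))) (g := fun _ => (-1 : ℚ))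
      (h := fun _ a => sc a) (poly_unbits.comp h1) (NPC.Poly.const _) (hsc.comp (NPC.Poly.snd Poly.id))
  · have h1 := hf' (bits b)
    rw [bits_mem_lang] at h1
    rw [h1, mem_lang_iff]
    cases hx : unbits α (f (bits b)) with
    | none =>
      simp only [reduceCtorEq, false_and, exists_false, false_iff, not_lt, hx]
      push_cast
      linarith
    | some a =>
      simp only [Option.some.injEq, exists_eq_left', hx]
      exact h a

/-- one step of the search -/
def stepC {α : Type} (R c : α × List Bool → Bool) (a : α) (u : List Bool) : List Bool :=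
  if R (a, u) then u else if c (a, u) then u ++ [true] else u ++ [false]

theorem stepC_length {α : Type} (R c : α × List Bool → Bool) (a : α) (u : List Bool) :
    (stepC R c a u).length ≤ u.length + 1 := by
  unfold stepC
  split_ifs <;> simp

theorem iterC_length {α : Type} (R c : α × List Bool → Bool) (a : α) (k : ℕ) :
    ((stepC R c a)^[k] []).length ≤ k := by
  induction k with
  | zero => simp
  | succ k ih =>
    rw [Function.iterate_succ_apply']
    exact (stepC_length R c a _).trans (by omega)

/-- the prefix `z.2` extends to a certificate of `z.1` -/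
def Ext {α : Type} (R : α × List Bool → Bool) (B : α → ℕ) (z : α × List Bool) : Prop :=
  ∃ v : List Bool, (z.2 ++ v).length ≤ B z.1 ∧ R (z.1, z.2 ++ v) = true

theorem ext_inNPP {α : Type} [TEnc α] [TDec α] {R : α × List Bool → Bool} (hR : Poly R)
    {B : α → ℕ} (hB : UPoly B) : InNPP (Ext R B) := by
  obtain ⟨q, hq⟩ := upoly_le hB
  refine inNPP_of (β := List Bool) (R := fun z : (α × List Bool) × List Bool =>
    decide ((z.1.2 ++ z.2).length ≤ B z.1.1) && R (z.1.1, z.1.2 ++ z.2)) ?_
    (Polynomial.C 4 * q + 1) (fun z => ?_)
  · have h1 : Poly (fun z : (α × List Bool) × List Bool => B z.1.1) :=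
      (hB.comp (Poly.fst (Poly.fst Poly.id))).toPoly
    have h2 : Poly (fun z : (α × List Bool) × List Bool => R (z.1.1, z.1.2 ++ z.2)) :=
      hR.comp (by fun_prop)
    exact Poly.and (Poly.decide_le (by fun_prop) h1) h2
  · constructor
    · rintro ⟨v, h1, h2⟩
      refine ⟨v, ?_, by simp only [h2, Bool.and_true, decide_eq_true_eq]; exact h1⟩
      have h3 := sz_listBool_le v
      have h4 := hq z.1
      have h5 : q.eval (sz z.1) ≤ q.eval (sz z) := by
        refine eval_mono q ?_
        have := sz_pair z.1 z.2
        have e : sz z = sz (z.1, z.2) := rfl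
        omega
      rw [List.length_append] at h1
      simp only [Polynomial.eval_add, Polynomial.eval_mul, Polynomial.eval_C,
        Polynomial.eval_one]
      omega
    · rintro ⟨v, -, h2⟩
      rw [Bool.and_eq_true, decide_eq_true_iff] at h2
      exact ⟨v, h2.1, h2.2⟩

/-- The search with the help of a selector. -/
theorem searchC {α : Type} [TEnc α] {R : α × List Bool → Bool} (hR : Poly R) {B : α → ℕ}
    (hB : UPoly B) {c : α × List Bool → Bool} (hc : Poly c)
    (hsel : ∀ a u, (Ext R B (a, u ++ [true]) ∨ Ext R B (a, u ++ [false])) →
      if c (a, u) then Ext R B (a, u ++ [true]) else Ext R B (a, u ++ [false])) :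
    ∃ F : α → List Bool, Poly F ∧
      ∀ a, (∃ w : List Bool, w.length ≤ B a ∧ R (a, w) = true) → R (a, F a) = true := by
  obtain ⟨q, hq⟩ := upoly_le hB
  refine ⟨fun a => (stepC R c a)^[B a] [], ?_, fun a ha => ?_⟩
  · have h1 : Poly (fun p : α × List Bool => stepC R c p.1 p.2) := by
      unfold stepC
      refine Poly.ite (Poly.decide_bool (hR.comp (by fun_prop))) (by fun_prop)
        (Poly.ite (Poly.decide_bool (hc.comp (by fun_prop))) (by fun_prop) (by fun_prop))
    have h2 := Poly.iterLen (l := fun a => List.replicate (B a) ()) (s := fun _ : α => [])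
      (F := stepC R c) hB (NPC.Poly.const _) h1 (Polynomial.C 4 * q + 1) (by
        intro a k hk
        rw [List.length_replicate] at hk
        have h3 := iterC_length R c a k
        have h4 := sz_listBool_le ((stepC R c a)^[k] [])
        have h5 := hq a
        simp only [Polynomial.eval_add, Polynomial.eval_mul, Polynomial.eval_C,
          Polynomial.eval_one]
        omega)
    refine h2.congr fun a => ?_
    rw [List.length_replicate]
  · have inv : ∀ k, Ext R B (a, (stepC R c a)^[k] []) ∧
        (R (a, (stepC R c a)^[k] []) = true ∨ ((stepC R c a)^[k] []).length = k) := by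
      intro k
      induction k with
      | zero =>
        obtain ⟨w, h1, h2⟩ := ha
        exact ⟨⟨w, by simpa using h1, by simpa using h2⟩, Or.inr rfl⟩
      | succ k ih =>
        rw [Function.iterate_succ_apply']
        set u := (stepC R c a)^[k] [] with hu
        obtain ⟨⟨v, h1, h2⟩, h3⟩ := ih
        by_cases hRu : R (a, u) = true
        · have : stepC R c a u = u := by simp [stepC, hRu]
          rw [this]
          exact ⟨⟨v, h1, h2⟩, Or.inl hRu⟩
        · have hlen : u.length = k := h3.resolve_left hRu
          have hor : Ext R B (a, u ++ [true]) ∨ Ext R B (a, u ++ [false]) := by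
            cases v with
            | nil =>
              exfalso
              apply hRu
              simpa using h2
            | cons b v =>
              cases b with
              | true => exact Or.inl ⟨v, by simpa using h1, by simpa using h2⟩
              | false => exact Or.inr ⟨v, by simpa using h1, by simpa using h2⟩
          have hs := hsel a u hor
          by_cases heu : c (a, u) = true
          · have hs' : stepC R c a u = u ++ [true] := by simp [stepC, hRu, heu]
            rw [if_pos heu] at hs
            rw [hs']
            exact ⟨hs, Or.inr (by simp [hlen])⟩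
          · have hs' : stepC R c a u = u ++ [false] := by simp [stepC, hRu, heu]
            rw [if_neg heu] at hs
            rw [hs']
            exact ⟨hs, Or.inr (by simp [hlen])⟩
    obtain ⟨⟨v, h1, h2⟩, h3⟩ := inv (B a)
    rcases h3 with h3 | h3
    · exact h3
    · simp only at h1 h2
      rw [List.length_append, h3] at h1
      have : v = [] := List.length_eq_zero_iff.1 (by omega)
      subst this
      simpa using h2

/-- **Selman's argument.** -/
theorem collapse {α : Type} [TEnc α] [TDec α] {P : α → Prop}
    {sc : α → ℚ} (hsc : Poly sc) {δ : ℝ} (hδ : 0 ≤ δ) (h : ∀ a, P a ↔ δ < (sc a : ℝ))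
    (hard : NPHardP P) : ∀ L, InNP L → InP L := by
  rintro L ⟨V, p, hV, hL⟩
  let B : List Bool → ℕ := fun x => p.eval x.length
  let R : List Bool × List Bool → Bool := fun z =>
    decide (z.2.length ≤ B z.1) && decide (V (pairBits z.1 z.2) = [true])
  have hB : UPoly B := UPoly.eval (UPoly.length Poly.id) p
  have hR : Poly R := by
    refine Poly.and (Poly.decide_le (by fun_prop) (hB.comp (Poly.fst Poly.id)).toPoly)
      (Poly.decide_eq ((H622R2.poly_of_polyTime hV).comp ?_) (NPC.Poly.const _))
    exact H622R2.poly_pairBits (Poly.fst Poly.id) (Poly.snd Poly.id)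
  obtain ⟨sc', h1, h2⟩ := exists_score hsc hδ h hard (ext_inNPP hR hB)
  let c : List Bool × List Bool → Bool := fun z =>
    decide (sc' (z.1, z.2 ++ [false]) ≤ sc' (z.1, z.2 ++ [true]))
  have hc : Poly c := by
    refine RatP.poly_le (h1.comp ?_) (h1.comp ?_) <;> fun_prop
  obtain ⟨F, hF, hF'⟩ := searchC hR hB hc (by
    intro a u hor
    by_cases hcu : c (a, u) = true
    · rw [if_pos hcu]
      have h3 : sc' (a, u ++ [false]) ≤ sc' (a, u ++ [true]) := of_decide_eq_true hcu
      rcases hor with h4 | h4
      · exact h4
      · rw [h2] at h4 ⊢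
        exact h4.trans_le (by exact_mod_cast h3)
    · rw [if_neg hcu]
      have h3 : ¬ sc' (a, u ++ [false]) ≤ sc' (a, u ++ [true]) := fun h5 => hcu (decide_eq_true h5)
      rcases hor with h4 | h4
      · rw [h2] at h4 ⊢
        exact h4.trans (by exact_mod_cast lt_of_not_ge h3)
      · exact h4)
  refine ⟨fun x => [R (x, F x)], polyTime_of_poly (hR.comp (Poly.pair Poly.id hF)), fun x => ?_⟩
  rw [hL x]
  constructor
  · rintro ⟨w, h3, h4⟩
    have h5 : R (x, w) = true := by
      change (decide (w.length ≤ B x) && decide (V (pairBits x w) = [true])) = true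
      rw [decide_eq_true h3, decide_eq_true h4]
      rfl
    change [R (x, F x)] = [true]
    rw [hF' x ⟨w, h3, h5⟩]
  · intro h3
    have h4 : R (x, F x) = true := by simpa using h3
    change (decide ((F x).length ≤ B x) && decide (V (pairBits x (F x)) = [true])) = true at h4
    rw [Bool.and_eq_true, decide_eq_true_iff, decide_eq_true_iff] at h4
    exact ⟨F x, h4.1, h4.2⟩

end Q229.Sel
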