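import Pool.Agent.Q229.HP.Alg
import Pool.Agent.Q229.HP.Sel

/-!
# Running time
-/

set_option autoImplicit false

namespace Q229.HP

open Relation Pool.Agent Pool.Agent.NPC Pool.Agent.H614R2.DPO

variable {α : Type} [TEnc α]

theorem poly_co {I : α → Inst} {v : α → ℕ} (hI : Poly I) (hv : Poly v) :
    Poly (fun a => co (I a) (v a)) := by
  unfold co
  exact Poly.getD (Poly.fst hI) hv (NPC.Poly.const _)

theorem poly_dir {I : α → Inst} {e : α → ℕ × ℕ} (hI : Poly I) (he : Poly e) :
    Poly (fun a => dir (I a) (e a)) := by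
  have h1 := poly_co hI (Poly.fst he)
  have h2 := poly_co hI (Poly.snd he)
  unfold dir
  exact Poly.pair (RatP.poly_sub (Poly.fst h2) (Poly.fst h1)) (RatP.poly_sub (Poly.snd h2) (Poly.snd h1))

theorem poly_cr {u v : α → ℚ × ℚ} (hu : Poly u) (hv : Poly v) :
    Poly (fun a => cr (u a) (v a)) := by
  unfold cr
  exact RatP.poly_sub (RatP.poly_mul (Poly.fst hu) (Poly.snd hv))
    (RatP.poly_mul (Poly.snd hu) (Poly.fst hv))

theorem poly_T {I : α → Inst} {e f : α → ℕ × ℕ} (hI : Poly I) (he : Poly e) (hf : Poly f) :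
    Poly (fun a => T (I a) (e a) (f a)) := by
  have h1 := poly_co hI (Poly.fst he)
  have h2 := poly_co hI (Poly.fst hf)
  unfold T
  exact RatP.poly_div (poly_cr (Poly.pair (RatP.poly_sub (Poly.fst h2) (Poly.fst h1))
    (RatP.poly_sub (Poly.snd h2) (Poly.snd h1))) (poly_dir hI hf))
    (poly_cr (poly_dir hI he) (poly_dir hI hf))

theorem poly_crB {I : α → Inst} {e f : α → ℕ × ℕ} (hI : Poly I) (he : Poly e) (hf : Poly f) :
    Poly (fun a => crB (I a) (e a) (f a)) := by
  have h1 := poly_T hI he hf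
  have h2 := poly_T hI hf he
  unfold crB
  exact Poly.and (Poly.decide_not (Poly.decide_eq (poly_cr (poly_dir hI he) (poly_dir hI hf))
    (NPC.Poly.const 0)))
    (Poly.and (Poly.and (RatP.poly_lt (NPC.Poly.const 0) h1) (RatP.poly_lt h1 (NPC.Poly.const 1)))
      (Poly.and (RatP.poly_lt (NPC.Poly.const 0) h2) (RatP.poly_lt h2 (NPC.Poly.const 1))))

attribute [fun_prop] poly_T poly_crB

theorem poly_imp {γ : α → ℚ} {I : α → Inst} {x y : α → Lit} (hγ : Poly γ) (hI : Poly I)
    (hx : Poly x) (hy : Poly y) : Poly (fun a => imp (γ a) (I a) (x a) (y a)) := by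
  unfold imp
  fun_prop

theorem poly_lits {I : α → Inst} (hI : Poly I) : Poly (fun a => lits (I a)) := by
  unfold lits
  fun_prop

theorem poly_ng {x : α → Lit} (hx : Poly x) : Poly (fun a => ng (x a)) := by
  unfold ng
  fun_prop

attribute [fun_prop] poly_imp poly_lits poly_ng

theorem poly_sat {γ : α → ℚ} {I : α → Inst} (hγ : Poly γ) (hI : Poly I) :
    Poly (fun a => sat (γ a) (I a)) := by
  unfold sat
  fun_prop

attribute [fun_prop] poly_sat

theorem poly_cands {I : α → Inst} (hI : Poly I) : Poly (fun a => cands (I a)) := by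
  unfold cands
  fun_prop

attribute [fun_prop] poly_cands

theorem poly_badL {I : α → Inst} (hI : Poly I) : Poly (fun a => badL (I a)) := by
  unfold badL
  fun_prop

theorem poly_mx {l : α → List ℚ} (hl : Poly l) : Poly (fun a => mx (l a)) := by
  unfold mx
  exact NPC.Poly.head?_getD (l := fun a => (l a).filter fun d => (l a).all fun d' => decide (d' ≤ d))
    (by fun_prop) 0

theorem poly_thr : Poly thr := by
  unfold thr
  exact RatP.poly_div (RatP.poly_sub (NPC.Poly.const 1) (poly_mx (poly_badL Poly.id)))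
    (NPC.Poly.const 2)

/-! ### Checking that the input is a drawing -/

/-- dot product -/
def dt (u v : ℚ × ℚ) : ℚ := u.1 * v.1 + u.2 * v.2

/-- difference -/
def sb (u v : ℚ × ℚ) : ℚ × ℚ := (u.1 - v.1, u.2 - v.2)

/-- test whether `c` lies on the segment from `a` to `b`, for `a ≠ b` -/
def onB (a b c : ℚ × ℚ) : Bool :=
  decide (cr (sb b a) (sb c a) = 0) && (decide (0 ≤ dt (sb c a) (sb b a)) &&
    decide (dt (sb c a) (sb b a) ≤ dt (sb b a) (sb b a)))

theorem on_iff {I : Inst} {u v w : ℕ} (huv : pos I u ≠ pos I v) :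
    onB (co I u) (co I v) (co I w) = true ↔ pos I w ∈ segment ℝ (pos I u) (pos I v) := by
  unfold onB
  simp only [Bool.and_eq_true, decide_eq_true_eq]
  rw [mem_seg]
  set a := co I u with ha
  set b := co I v with hb
  set c := co I w with hc
  have hab : ((b.1 : ℝ) - a.1) ≠ 0 ∨ ((b.2 : ℝ) - a.2) ≠ 0 := by
    by_contra h0
    push Not at h0
    apply huv
    apply pt_ext
    · rw [pos_zero, pos_zero]; linarith [h0.1]
    · rw [pos_one, pos_one]; linarith [h0.2]
  have hp : (0 : ℝ) < (b.1 - a.1) ^ 2 + (b.2 - a.2) ^ 2 := by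
    rcases hab with h1 | h1
    · have : (0 : ℝ) < ((b.1 : ℝ) - a.1) ^ 2 := by positivity
      positivity
    · have : (0 : ℝ) < ((b.2 : ℝ) - a.2) ^ 2 := by positivity
      positivity
  constructor
  · rintro ⟨h1, h2, h3⟩
    have h1' : ((b.1 : ℝ) - a.1) * (c.2 - a.2) - (b.2 - a.2) * (c.1 - a.1) = 0 := by
      unfold cr sb at h1
      simp only at h1
      exact_mod_cast h1
    have h2' : (0 : ℝ) ≤ (c.1 - a.1) * (b.1 - a.1) + (c.2 - a.2) * (b.2 - a.2) := by
      unfold dt sb at h2
      simp only at h2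
      exact_mod_cast h2
    have h3' : ((c.1 : ℝ) - a.1) * (b.1 - a.1) + (c.2 - a.2) * (b.2 - a.2) ≤
        (b.1 - a.1) * (b.1 - a.1) + (b.2 - a.2) * (b.2 - a.2) := by
      unfold dt sb at h3
      simp only at h3
      exact_mod_cast h3
    refine ⟨((c.1 - a.1) * (b.1 - a.1) + (c.2 - a.2) * (b.2 - a.2)) /
      ((b.1 - a.1) ^ 2 + (b.2 - a.2) ^ 2), ⟨div_nonneg h2' hp.le, ?_⟩, ?_⟩
    · rw [div_le_one hp]
      linarith
    · apply pt_ext
      · rw [lm_apply, pos_zero, pos_zero, pos_zero, ← ha, ← hb, ← hc]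
        rw [div_mul_eq_mul_div, ← sub_eq_iff_eq_add', eq_div_iff hp.ne']
        linear_combination (-((b.2 : ℝ) - a.2)) * h1'
      · rw [lm_apply, pos_one, pos_one, pos_one, ← ha, ← hb, ← hc]
        rw [div_mul_eq_mul_div, ← sub_eq_iff_eq_add', eq_div_iff hp.ne']
        linear_combination (((b.1 : ℝ) - a.1)) * h1'
  · rintro ⟨t, ⟨h0, h1⟩, hx⟩
    have hx0 := congrArg (fun x : Pt => x 0) hx
    have hx1 := congrArg (fun x : Pt => x 1) hx
    simp only [lm_apply] at hx0 hx1
    rw [pos_zero, pos_zero, pos_zero, ← ha, ← hb, ← hc] at hx0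
    rw [pos_one, pos_one, pos_one, ← ha, ← hb, ← hc] at hx1
    refine ⟨?_, ?_, ?_⟩
    · have : ((b.1 : ℝ) - a.1) * (c.2 - a.2) - (b.2 - a.2) * (c.1 - a.1) = 0 := by
        rw [hx0, hx1]
        ring
      unfold cr sb
      simp only
      exact_mod_cast this
    · have : (0 : ℝ) ≤ (c.1 - a.1) * (b.1 - a.1) + (c.2 - a.2) * (b.2 - a.2) := by
        rw [hx0, hx1]
        have : (a.1 + t * (b.1 - a.1) - a.1) * (b.1 - a.1) + (a.2 + t * (b.2 - a.2) - a.2) * (b.2 - a.2)
          = t * (((b.1 : ℝ) - a.1) ^ 2 + (b.2 - a.2) ^ 2) := by ring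
        rw [this]
        exact mul_nonneg h0 hp.le
      unfold dt sb
      simp only
      exact_mod_cast this
    · have : ((c.1 : ℝ) - a.1) * (b.1 - a.1) + (c.2 - a.2) * (b.2 - a.2) ≤
        (b.1 - a.1) * (b.1 - a.1) + (b.2 - a.2) * (b.2 - a.2) := by
        rw [hx0, hx1]
        have : (a.1 + t * (b.1 - a.1) - a.1) * (b.1 - a.1) + (a.2 + t * (b.2 - a.2) - a.2) * (b.2 - a.2)
          = t * (((b.1 : ℝ) - a.1) ^ 2 + (b.2 - a.2) ^ 2) := by ring
        rw [this]
        nlinarith
      unfold dt sb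
      simp only
      exact_mod_cast this

/-- test for `IsDrawing` -/
def drawB (I : Inst) : Bool :=
  decide (I.1.dedup = I.1) && (decide (I.2.dedup = I.2) &&
    ((I.2.all fun e => decide (e.1 < e.2) && decide (e.2 < I.1.length)) &&
      I.2.all fun e => (List.range I.1.length).all fun v =>
        decide (v = e.1) || (decide (v = e.2) || !(onB (co I e.1) (co I e.2) (co I v)))))

theorem drawB_iff {I : Inst} : drawB I = true ↔ IsDrawing I := by
  unfold drawB IsDrawing
  simp only [Bool.and_eq_true, decide_eq_true_eq, List.dedup_eq_self, List.all_eq_true,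
    Bool.or_eq_true, List.mem_range, Bool.not_eq_true']
  refine and_congr_right fun h1 => and_congr_right fun h2 => ?_
  refine and_congr_right fun h3 => ?_
  refine forall₂_congr fun e he => forall₂_congr fun v hv => ?_
  obtain ⟨h4, h5⟩ := h3 e he
  have hne : pos I e.1 ≠ pos I e.2 := by
    intro h6
    exact h4.ne (co_inj h1 (h4.trans h5) h5 h6)
  rw [← on_iff hne]
  constructor
  · intro h6 h7 h8
    rcases h6 with h6 | h6 | h6
    · exact absurd h6 h7
    · exact absurd h6 h8
    · simp [h6]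
  · intro h6
    by_cases h7 : v = e.1
    · exact Or.inl h7
    · by_cases h8 : v = e.2
      · exact Or.inr (Or.inl h8)
      · exact Or.inr (Or.inr (by simpa using h6 h7 h8))

theorem poly_sb {u v : α → ℚ × ℚ} (hu : Poly u) (hv : Poly v) :
    Poly (fun a => sb (u a) (v a)) := by
  unfold sb
  exact Poly.pair (RatP.poly_sub (Poly.fst hu) (Poly.fst hv))
    (RatP.poly_sub (Poly.snd hu) (Poly.snd hv))

theorem poly_dt {u v : α → ℚ × ℚ} (hu : Poly u) (hv : Poly v) :
    Poly (fun a => dt (u a) (v a)) := by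
  unfold dt
  exact RatP.poly_add (RatP.poly_mul (Poly.fst hu) (Poly.fst hv))
    (RatP.poly_mul (Poly.snd hu) (Poly.snd hv))

theorem poly_onB {u v w : α → ℚ × ℚ} (hu : Poly u) (hv : Poly v) (hw : Poly w) :
    Poly (fun a => onB (u a) (v a) (w a)) := by
  unfold onB
  have h1 := poly_sb hv hu
  have h2 := poly_sb hw hu
  exact Poly.and (Poly.decide_eq (poly_cr h1 h2) (NPC.Poly.const 0))
    (Poly.and (RatP.poly_le (NPC.Poly.const 0) (poly_dt h2 h1))
      (RatP.poly_le (poly_dt h2 h1) (poly_dt h1 h1)))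

attribute [fun_prop] poly_co poly_onB

theorem poly_range_len : Poly (fun I : Inst => List.range I.1.length) :=
  NPC.Poly.range_uPoly (NPC.UPoly.length (Poly.fst Poly.id))

theorem poly_drawB : Poly drawB := by
  have h1 : Poly (fun I : Inst => decide (I.1.dedup = I.1)) :=
    Poly.decide_eq (H612.poly_dedup (Poly.fst Poly.id)) (Poly.fst Poly.id)
  have h2 : Poly (fun I : Inst => decide (I.2.dedup = I.2)) :=
    Poly.decide_eq (H612.poly_dedup (Poly.snd Poly.id)) (Poly.snd Poly.id)
  have h3 : Poly (fun I : Inst => I.2.all fun e => decide (e.1 < e.2) && decide (e.2 < I.1.length)) := by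
    fun_prop
  have h4 : Poly (fun I : Inst => I.2.all fun e => (List.range I.1.length).all fun v =>
        decide (v = e.1) || (decide (v = e.2) || !(onB (co I e.1) (co I e.2) (co I v)))) := by
    refine Poly.all (Poly.snd Poly.id) ?_
    refine Poly.all (poly_range_len.comp (Poly.fst Poly.id)) ?_
    fun_prop
  unfold drawB
  exact Poly.and h1 (Poly.and h2 (Poly.and h3 h4))

/-- the score of an input -/
def score (I : Inst) : ℚ := if drawB I = true then thr I else 0

theorem poly_score : Poly score := by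
  unfold score
  exact Poly.ite (Poly.decide_eq poly_drawB (NPC.Poly.const true)) poly_thr (NPC.Poly.const 0)

theorem hped_iff_score {δ : ℝ} (hδ : 0 < δ ∧ δ < 1 / 2) (I : Inst) :
    HPED δ I ↔ δ < ((score I : ℚ) : ℝ) := by
  rw [hped_iff_thr hδ]
  unfold score
  split_ifs with h
  · rw [drawB_iff] at h
    simp [h]
  · have h1 : ¬ IsDrawing I := fun h2 => h (drawB_iff.2 h2)
    simp only [h1, false_and, false_iff, not_lt, Rat.cast_zero]
    exact hδ.1.le

end Q229.HP
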